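import Mathlib

set_option autoImplicit false

/-! # The near-twin bound -/

namespace Pool.Agent.Lib.MP_85f9db_co.H67

open Finset

section OddSeq

variable {V : Type*}

/-- A closed walk of odd length `l` in `L`, written as a periodic sequence. -/
structure OddSeq (L : SimpleGraph V) (l : ℕ) (u : ℕ → V) : Prop where
  odd : Odd l
  per : ∀ i, u (i + l) = u i
  adj : ∀ i, L.Adj (u i) (u (i + 1))

/-- wrapping a finite closed sequence around -/
lemma OddSeq.wrap {L : SimpleGraph V} {l : ℕ} (hl : Odd l) (u : ℕ → V)
    (hadj : ∀ i, i < l → L.Adj (u i) (u (i + 1))) (hc : u l = u 0) :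
    OddSeq L l (fun i => u (i % l)) := by
  have hl0 : 0 < l := hl.pos
  refine ⟨hl, fun i => by simp, fun i => ?_⟩
  have h1 : i % l < l := Nat.mod_lt _ hl0
  rcases Nat.lt_or_ge (i % l + 1) l with h | h
  · have h2 : (i + 1) % l = i % l + 1 := by
      rw [Nat.add_mod]
      rcases Nat.lt_or_ge 1 l with h1l | h1l
      · rw [Nat.mod_eq_of_lt h1l, Nat.mod_eq_of_lt h]
      · omega
    simp only [h2]
    exact hadj _ h1
  · have h2 : i % l + 1 = l := by omega
    have h3 : (i + 1) % l = 0 := by
      have : i + 1 = l * (i / l) + l := by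
        have := Nat.div_add_mod i l
        omega
      rw [this]
      simp
    simp only [h3]
    have h4 := hadj _ h1
    rw [h2, hc] at h4
    exact h4

lemma exists_oddSeq {L : SimpleGraph V} (h : ¬ L.Colorable 2) : ∃ l u, OddSeq L l u := by
  rw [SimpleGraph.two_colorable_iff_forall_loop_even] at h
  push Not at h
  obtain ⟨v, w, hw⟩ := h
  rw [Nat.not_even_iff_odd] at hw
  refine ⟨w.length, _, OddSeq.wrap hw w.getVert (fun i hi => ?_) ?_⟩
  · exact w.adj_getVert_succ hi
  · rw [w.getVert_length, w.getVert_zero]

lemma exists_oddSeq_inj {L : SimpleGraph V} (h : ¬ L.Colorable 2) :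
    ∃ l u, OddSeq L l u ∧ ∀ i j, i < j → j < i + l → u i ≠ u j := by
  classical
  have hex : ∃ l, ∃ u, OddSeq L l u := exists_oddSeq h
  obtain ⟨u, hu⟩ := Nat.find_spec hex
  refine ⟨Nat.find hex, u, hu, ?_⟩
  intro i j hij hjl heq
  set l := Nat.find hex with hl
  have hmin : ∀ l', l' < l → ¬ ∃ u, OddSeq L l' u := fun l' hl' => Nat.find_min hex hl'
  rcases Nat.even_or_odd (j - i) with he | ho
  · -- the complementary arc is odd
    have hodd : Odd (l - (j - i)) := by
      have := hu.odd
      rw [Nat.odd_sub (by omega)]
      simp [this, he]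
    apply hmin (l - (j - i)) (by omega)
    refine ⟨_, OddSeq.wrap hodd (fun k => u (j + k)) (fun k _ => ?_) ?_⟩
    · exact hu.adj (j + k)
    · have h1 : j + (l - (j - i)) = i + l := by omega
      show u (j + (l - (j - i))) = u (j + 0)
      rw [h1, hu.per, heq]
      rfl
  · apply hmin (j - i) (by omega)
    refine ⟨_, OddSeq.wrap ho (fun k => u (i + k)) (fun k _ => ?_) ?_⟩
    · exact hu.adj (i + k)
    · have h1 : i + (j - i) = j := by omega
      show u (i + (j - i)) = u (i + 0)
      rw [h1, ← heq]
      rfl

end OddSeq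

section Near

variable {V : Type*} [Fintype V] (G : SimpleGraph V) [DecidableRel G.Adj]

/-- The set of common neighbours. -/
def com (u v : V) : Finset V := univ.filter (fun w => G.Adj u w ∧ G.Adj v w)

/-- The vertices adjacent to both or to neither of `u`, `v`. -/
def exc (u v : V) : Finset V := univ.filter (fun w => (G.Adj u w ↔ G.Adj v w))

lemma mem_com {u v w : V} : w ∈ com G u v ↔ G.Adj u w ∧ G.Adj v w := by
  simp [com]

lemma mem_exc {u v w : V} : w ∈ exc G u v ↔ (G.Adj u w ↔ G.Adj v w) := by
  simp [exc]

lemma com_comm (u v : V) : com G u v = com G v u := by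
  ext w
  simp only [mem_com]
  tauto

lemma card_exc (u v : V) :
    (exc G u v).card + G.degree u + G.degree v = Fintype.card V + 2 * (com G u v).card := by
  have h1 : G.degree u = ∑ w : V, if G.Adj u w then 1 else 0 := by
    rw [← SimpleGraph.card_neighborFinset_eq_degree, SimpleGraph.neighborFinset_eq_filter,
      Finset.card_filter]
  have h2 : G.degree v = ∑ w : V, if G.Adj v w then 1 else 0 := by
    rw [← SimpleGraph.card_neighborFinset_eq_degree, SimpleGraph.neighborFinset_eq_filter,
      Finset.card_filter]
  have h3 : Fintype.card V = ∑ w : V, 1 := by simp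
  rw [h1, h2, h3, exc, com, Finset.card_filter, Finset.card_filter, Finset.mul_sum,
    ← Finset.sum_add_distrib, ← Finset.sum_add_distrib, ← Finset.sum_add_distrib]
  apply Finset.sum_congr rfl
  intro w _
  by_cases h4 : G.Adj u w <;> by_cases h5 : G.Adj v w <;> simp [h4, h5]

/-- The light graph: non-adjacent pairs with at most `s` common neighbours. -/
def light (s : ℕ) : SimpleGraph V where
  Adj u v := u ≠ v ∧ ¬ G.Adj u v ∧ (com G u v).card ≤ s
  symm := ⟨by
    rintro u v ⟨h1, h2, h3⟩
    exact ⟨h1.symm, fun h => h2 h.symm, by rwa [com_comm]⟩⟩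
  loopless := ⟨fun u h => h.1 rfl⟩

/-- A sequence of propositions that changes its value somewhere. -/
lemma exists_change (b : ℕ → Prop) (m : ℕ) {k0 k1 : ℕ} (h0 : k0 ≤ m) (h1 : k1 ≤ m)
    (hb0 : b k0) (hb1 : ¬ b k1) : ∃ k, k < m ∧ ¬ (b k ↔ b (k + 1)) := by
  by_contra hcon
  push Not at hcon
  have : ∀ k, k ≤ m → (b k ↔ b 0) := by
    intro k
    induction k with
    | zero => intro _; rfl
    | succ k ih =>
      intro hk
      rw [← hcon k (by omega)]
      exact ih (by omega)
  exact hb1 ((this k1 h1).mpr ((this k0 h0).mp hb0))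

/-- **Near-twin bound.** -/
theorem card_near_le {L : SimpleGraph V} {l : ℕ} {u : ℕ → V} (hu : OddSeq L l u)
    (hinj : ∀ i j, i < j → j < i + l → u i ≠ u j) (M : ℕ)
    (hM : ∀ i, (exc G (u i) (u (i + 1))).card ≤ M) (x : V) (r : ℕ) :
    (univ.filter (fun y => (exc G x y).card ≤ r)).card ≤ (2 * r + 1) * M := by
  classical
  -- the sequence attached to a vertex
  obtain ⟨b, hb⟩ : ∃ b : V → ℕ → Prop, ∀ z j, b z j ↔ (G.Adj (u j) z ↔ Even j) :=
    ⟨fun z j => (G.Adj (u j) z ↔ Even j), fun _ _ => Iff.rfl⟩
  have hchange : ∀ y j, ¬ (b y j ↔ b y (j + 1)) → y ∈ exc G (u j) (u (j + 1)) := by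
    intro y j h
    rw [mem_exc]
    rw [hb, hb, Nat.even_add_one] at h
    tauto
  have hanti : ∀ y j, b y (j + l) ↔ ¬ b y j := by
    intro y j
    rw [hb, hb]
    rw [hu.per, Nat.even_add]
    have : ¬ Even l := Nat.not_even_iff_odd.mpr hu.odd
    tauto
  rcases Nat.lt_or_ge (2 * r + 1) l with hlr | hlr
  swap
  · -- short closed walk : every vertex is exceptional somewhere
    have hsub : (univ.filter (fun y => (exc G x y).card ≤ r)) ⊆
        (range (2 * r + 1)).biUnion (fun j => exc G (u j) (u (j + 1))) := by
      intro y _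
      have h0 := hanti y 0
      rw [zero_add] at h0
      have : ∃ k, k < l ∧ ¬ (b y k ↔ b y (k + 1)) := by
        by_cases hb0 : b y 0
        · exact exists_change (b y) l (k0 := 0) (k1 := l) (by omega) le_rfl hb0
            (by rw [h0]; exact not_not.mpr hb0)
        · exact exists_change (b y) l (k0 := l) (k1 := 0) le_rfl (by omega)
            (h0.mpr hb0) hb0
      obtain ⟨k, hk, hk2⟩ := this
      rw [Finset.mem_biUnion]
      exact ⟨k, Finset.mem_range.mpr (by omega), hchange y k hk2⟩
    calc _ ≤ _ := Finset.card_le_card hsub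
      _ ≤ (range (2 * r + 1)).card * M := Finset.card_biUnion_le_card_mul _ _ _ (fun k _ => hM k)
      _ = (2 * r + 1) * M := by rw [Finset.card_range]
  · -- long closed walk : find a balanced window
    let c : ℕ → ℕ := fun i => ((range (2 * r + 1)).filter (fun k => b x (i + k))).card
    have hcl : c (0 + l) = 2 * r + 1 - c 0 := by
      have h1 := Finset.card_filter_add_card_filter_not (s := range (2 * r + 1))
        (fun k => b x (0 + k))
      rw [Finset.card_range] at h1
      have h2 : c (0 + l) = ((range (2 * r + 1)).filter (fun k => ¬ b x (0 + k))).card := by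
        simp only [c]
        congr 1
        apply Finset.filter_congr
        intro k _
        rw [show 0 + l + k = (0 + k) + l by ring]
        exact hanti x (0 + k)
      simp only [c] at h2 ⊢
      omega
    have hwin : ∃ i, (c i ≤ r ∧ r + 1 ≤ c (i + 1)) ∨ (r + 1 ≤ c i ∧ c (i + 1) ≤ r) := by
      by_contra hcon
      push Not at hcon
      have h1 : ∀ i, (c i ≤ r ↔ c (i + 1) ≤ r) := by
        intro i
        have h2 := hcon i
        constructor
        · intro h3
          have := h2.1 h3
          omega
        · intro h3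
          by_contra h4
          have := h2.2 (by omega)
          omega
      have h2 : ∀ i, (c i ≤ r ↔ c 0 ≤ r) := by
        intro i
        induction i with
        | zero => rfl
        | succ i ih => rw [← h1 i, ih]
      have h3 := h2 (0 + l)
      omega
    obtain ⟨i, hi⟩ := hwin
    obtain ⟨nb, hnb⟩ : ∃ nb : ℕ → Prop, ∀ j, nb j ↔ ¬ b x j := ⟨fun j => ¬ b x j, fun _ => Iff.rfl⟩
    let A1 : Finset ℕ := (range (2 * r + 2)).filter (fun k => b x (i + k))
    let A0 : Finset ℕ := (range (2 * r + 2)).filter (fun k => nb (i + k))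
    have hsplit : ∀ i', ((range (2 * r + 1)).filter (fun k => nb (i' + k))).card
        = 2 * r + 1 - c i' := by
      intro i'
      have h1 := Finset.card_filter_add_card_filter_not (s := range (2 * r + 1))
        (fun k => b x (i' + k))
      rw [Finset.card_range] at h1
      have h2 : ((range (2 * r + 1)).filter (fun k => nb (i' + k))).card =
          ((range (2 * r + 1)).filter (fun k => ¬ b x (i' + k))).card := by
        congr 1
        apply Finset.filter_congr
        intro k _
        exact hnb _
      simp only [c]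
      omega
    have hleft : ∀ P : ℕ → Prop, ((range (2 * r + 1)).filter (fun k => P (i + k))).card ≤
        ((range (2 * r + 2)).filter (fun k => P (i + k))).card := by
      intro P
      apply Finset.card_le_card
      intro k hk
      simp only [mem_filter, mem_range] at hk ⊢
      exact ⟨by omega, hk.2⟩
    have hright : ∀ P : ℕ → Prop, ((range (2 * r + 1)).filter (fun k => P (i + 1 + k))).card ≤
        ((range (2 * r + 2)).filter (fun k => P (i + k))).card := by
      intro P
      apply Finset.card_le_card_of_injOn (fun k => k + 1)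
      · intro k hk
        simp only [coe_filter, mem_range, Set.mem_ofPred_eq] at hk ⊢
        refine ⟨by omega, ?_⟩
        rw [show i + (k + 1) = i + 1 + k by ring]
        exact hk.2
      · intro k _ k' _ h
        simpa using h
    have hA1 : r + 1 ≤ A1.card := by
      rcases hi with ⟨h1, h2⟩ | ⟨h1, h2⟩
      · exact h2.trans (hright (b x))
      · exact h1.trans (hleft (b x))
    have hA0 : r + 1 ≤ A0.card := by
      rcases hi with ⟨h1, h2⟩ | ⟨h1, h2⟩
      · have h3 := hleft nb
        rw [hsplit] at h3
        simp only [A0]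
        omega
      · have h3 := hright nb
        rw [hsplit] at h3
        simp only [A0]
        omega
    have hpick : ∀ y, (exc G x y).card ≤ r → ∀ A : Finset ℕ, A ⊆ range (2 * r + 2) →
        r + 1 ≤ A.card → ∃ k ∈ A, u (i + k) ∉ exc G x y := by
      intro y hy A hA hcard
      by_contra hcon
      push Not at hcon
      have h1 : A.card ≤ (exc G x y).card := by
        apply Finset.card_le_card_of_injOn (fun k => u (i + k))
        · intro k hk
          exact hcon k hk
        · intro k hk k' hk' h
          have h2 := Finset.mem_range.mp (hA hk)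
          have h3 := Finset.mem_range.mp (hA hk')
          by_contra hne
          rcases Nat.lt_or_ge k k' with h4 | h4
          · exact hinj (i + k) (i + k') (by omega) (by omega) h
          · exact hinj (i + k') (i + k) (by omega) (by omega) h.symm
      omega
    have hflip : ∀ y k, u (i + k) ∉ exc G x y → (b y (i + k) ↔ ¬ b x (i + k)) := by
      intro y k h
      rw [mem_exc] at h
      rw [hb, hb]
      rw [G.adj_comm (u (i + k)) y, G.adj_comm (u (i + k)) x]
      tauto
    have hsub : (univ.filter (fun y => (exc G x y).card ≤ r)) ⊆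
        (range (2 * r + 1)).biUnion (fun k => exc G (u (i + k)) (u (i + k + 1))) := by
      intro y hy
      rw [Finset.mem_filter] at hy
      obtain ⟨k1, hk1, hk1'⟩ := hpick y hy.2 A1 (Finset.filter_subset _ _) hA1
      obtain ⟨k0, hk0, hk0'⟩ := hpick y hy.2 A0 (Finset.filter_subset _ _) hA0
      have hb1 : ¬ b y (i + k1) := by
        rw [hflip y k1 hk1']
        exact not_not.mpr (Finset.mem_filter.mp hk1).2
      have hb0 : b y (i + k0) := by
        rw [hflip y k0 hk0', ← hnb]
        exact (Finset.mem_filter.mp hk0).2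
      have hr1 := Finset.mem_range.mp (Finset.mem_filter.mp hk1).1
      have hr0 := Finset.mem_range.mp (Finset.mem_filter.mp hk0).1
      obtain ⟨k, hk, hk'⟩ := exists_change (fun k => b y (i + k)) (2 * r + 1)
        (k0 := k0) (k1 := k1) (by omega) (by omega) hb0 hb1
      rw [Finset.mem_biUnion]
      exact ⟨k, Finset.mem_range.mpr hk, hchange y (i + k) hk'⟩
    calc _ ≤ _ := Finset.card_le_card hsub
      _ ≤ (range (2 * r + 1)).card * M :=
        Finset.card_biUnion_le_card_mul _ _ _ (fun k _ => hM (i + k))
      _ = (2 * r + 1) * M := by rw [Finset.card_range]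

end Near

end Pool.Agent.Lib.MP_85f9db_co.H67
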