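import Pool.Agent.Lib.MP_85f9db_co.H67.LLL
import Pool.Agent.Lib.MP_85f9db_co.H67.Twin

set_option autoImplicit false

/-! # Noisy cut colourings and the local lemma -/

namespace Pool.Agent.Lib.MP_85f9db_co.H67

open Finset

section Aux

lemma prod_biUnion_ge {J K : Type*} [DecidableEq J] [DecidableEq K] (Z : Finset K)
    (N : K → Finset J) (a : J → ℝ) (h0 : ∀ j, 0 ≤ a j) (h1 : ∀ j, a j ≤ 1) :
    ∏ z ∈ Z, ∏ j ∈ N z, a j ≤ ∏ j ∈ Z.biUnion N, a j := by
  induction Z using Finset.induction_on with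
  | empty => simp
  | insert z Z hz ih =>
    rw [Finset.prod_insert hz, Finset.biUnion_insert]
    have h2 := Finset.prod_union_inter (s₁ := N z) (s₂ := Z.biUnion N) (f := a)
    have h3 : ∏ j ∈ N z ∩ Z.biUnion N, a j ≤ 1 :=
      Finset.prod_le_one (fun j _ => h0 j) (fun j _ => h1 j)
    have h4 : 0 ≤ ∏ j ∈ N z ∪ Z.biUnion N, a j := Finset.prod_nonneg (fun j _ => h0 j)
    have h5 : 0 ≤ ∏ j ∈ N z, a j := Finset.prod_nonneg (fun j _ => h0 j)
    calc (∏ j ∈ N z, a j) * ∏ z ∈ Z, ∏ j ∈ N z, a j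
        ≤ (∏ j ∈ N z, a j) * ∏ j ∈ Z.biUnion N, a j := mul_le_mul_of_nonneg_left ih h5
      _ = (∏ j ∈ N z ∪ Z.biUnion N, a j) * ∏ j ∈ N z ∩ Z.biUnion N, a j := h2.symm
      _ ≤ (∏ j ∈ N z ∪ Z.biUnion N, a j) * 1 := mul_le_mul_of_nonneg_left h3 h4
      _ = _ := mul_one _

lemma one_sub_sum_le {J : Type*} [DecidableEq J] (Y : Finset J) (a : J → ℝ)
    (h0 : ∀ j, 0 ≤ a j) (h1 : ∀ j, a j ≤ 1) :
    1 - ∑ j ∈ Y, a j ≤ ∏ j ∈ Y, (1 - a j) := by
  induction Y using Finset.induction_on with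
  | empty => simp
  | insert z Y hz ih =>
    rw [Finset.prod_insert hz, Finset.sum_insert hz]
    have h2 : 0 ≤ ∏ j ∈ Y, (1 - a j) := Finset.prod_nonneg (fun j _ => by linarith [h1 j])
    have h3 : ∏ j ∈ Y, (1 - a j) ≤ 1 :=
      Finset.prod_le_one (fun j _ => by linarith [h1 j]) (fun j _ => by linarith [h0 j])
    nlinarith [h0 z, h1 z]

end Aux

section Colour

variable {V : Type*} [Fintype V] [DecidableEq V] (G : SimpleGraph V) [DecidableRel G.Adj]
variable {α : Type*} [Fintype α] [Nonempty α]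

/-- The cut colouring. -/
def cutc (b : V → Bool) : Sym2 V → Bool :=
  Sym2.lift ⟨fun u v => xor (b u) (b v), fun _ _ => Bool.xor_comm _ _⟩

/-- The noisy cut colouring. -/
def col (b : V → Bool) (Z : α → Prop) [DecidablePred Z] (x : Sym2 V → α) (e : Sym2 V) : Bool :=
  xor (cutc b e) (decide (Z (x e)))

omit [Fintype V] [DecidableEq V] [Fintype α] [Nonempty α] in
lemma col_eq_iff (b : V → Bool) (Z : α → Prop) [DecidablePred Z] (x : Sym2 V → α) (u v w : V) :
    col b Z x s(u, w) = col b Z x s(v, w) ↔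
      (b u = b v ↔ (Z (x s(u, w)) ↔ Z (x s(v, w)))) := by
  unfold col cutc
  simp only [Sym2.lift_mk]
  by_cases h1 : Z (x s(u, w)) <;> by_cases h2 : Z (x s(v, w)) <;>
    cases b u <;> cases b v <;> cases b w <;> simp [h1, h2]

/-- Number of common neighbours, as a function on unordered pairs. -/
def tt : Sym2 V → ℕ :=
  Sym2.lift ⟨fun u v => (com G u v).card, fun u v => congrArg Finset.card (com_comm G u v)⟩

/-- The bad event of an unordered pair. -/
def bad (b : V → Bool) (Z : α → Prop) [DecidablePred Z] (f : Sym2 V) (x : Sym2 V → α) : Prop :=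
  ∃ u v, f = s(u, v) ∧ u ≠ v ∧ ¬ G.Adj u v ∧
    ∀ w ∈ com G u v, col b Z x s(u, w) = col b Z x s(v, w)

omit [DecidableEq V] [Fintype α] [Nonempty α] in
lemma bad_mk (b : V → Bool) (Z : α → Prop) [DecidablePred Z] (u v : V) (x : Sym2 V → α) :
    bad G b Z s(u, v) x ↔ (u ≠ v ∧ ¬ G.Adj u v ∧
      ∀ w ∈ com G u v, col b Z x s(u, w) = col b Z x s(v, w)) := by
  constructor
  · rintro ⟨u', v', h, h1, h2, h3⟩
    rw [Sym2.eq_iff] at h
    rcases h with ⟨rfl, rfl⟩ | ⟨rfl, rfl⟩
    · exact ⟨h1, h2, h3⟩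
    · refine ⟨h1.symm, fun h => h2 h.symm, fun w hw => ?_⟩
      rw [com_comm] at hw
      exact (h3 w hw).symm
  · rintro ⟨h1, h2, h3⟩
    exact ⟨u, v, rfl, h1, h2, h3⟩

/-- The coordinates on which the bad event of a pair depends. -/
def supp (f : Sym2 V) : Finset (Sym2 V) :=
  univ.filter (fun e => ∃ u v w, f = s(u, v) ∧ w ∈ com G u v ∧ e = s(u, w))

lemma mem_supp {f e : Sym2 V} :
    e ∈ supp G f ↔ ∃ u v w, f = s(u, v) ∧ w ∈ com G u v ∧ e = s(u, w) := by
  simp [supp]

omit [Fintype α] [Nonempty α] in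
lemma bad_dep (b : V → Bool) (Z : α → Prop) [DecidablePred Z] (f : Sym2 V) :
    DepOn (bad G b Z f) (supp G f) := by
  intro x y hxy
  have key : ∀ u v, f = s(u, v) → ∀ w ∈ com G u v,
      (col b Z x s(u, w) = col b Z x s(v, w) ↔ col b Z y s(u, w) = col b Z y s(v, w)) := by
    intro u v hf w hw
    have h1 : x s(u, w) = y s(u, w) := hxy _ ((mem_supp G).mpr ⟨u, v, w, hf, hw, rfl⟩)
    have h2 : x s(v, w) = y s(v, w) :=
      hxy _ ((mem_supp G).mpr ⟨v, u, w, by rw [hf, Sym2.eq_swap], by rwa [com_comm], rfl⟩)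
    unfold col
    rw [h1, h2]
  constructor
  · rintro ⟨u, v, hf, h1, h2, h3⟩
    exact ⟨u, v, hf, h1, h2, fun w hw => (key u v hf w hw).mp (h3 w hw)⟩
  · rintro ⟨u, v, hf, h1, h2, h3⟩
    exact ⟨u, v, hf, h1, h2, fun w hw => (key u v hf w hw).mpr (h3 w hw)⟩

/-- The vertices of a pair together with its common neighbours. -/
def verts (f : Sym2 V) : Finset V :=
  univ.filter (fun z => z ∈ f ∨ ∀ a ∈ f, G.Adj a z)

lemma mem_verts_mk {u v z : V} : z ∈ verts G s(u, v) ↔ z = u ∨ z = v ∨ z ∈ com G u v := by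
  simp only [verts, mem_filter, mem_univ, true_and, Sym2.mem_iff, mem_com]
  constructor
  · rintro (h | h)
    · tauto
    · right; right
      exact ⟨h u (Or.inl rfl), h v (Or.inr rfl)⟩
  · rintro (h | h | h)
    · tauto
    · tauto
    · right
      rintro a (rfl | rfl)
      · exact h.1
      · exact h.2

lemma card_verts (u v : V) (huv : u ≠ v) : (verts G s(u, v)).card = (com G u v).card + 2 := by
  have h1 : verts G s(u, v) = insert u (insert v (com G u v)) := by
    ext z
    rw [mem_verts_mk]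
    simp
  rw [h1, Finset.card_insert_of_notMem, Finset.card_insert_of_notMem]
  · rw [mem_com]
    intro h
    exact G.loopless.irrefl v h.2
  · rw [mem_insert, mem_com]
    rintro (h | h)
    · exact huv h
    · exact G.loopless.irrefl u h.1

lemma supp_disj {f g : Sym2 V} (h : ¬ Disjoint (supp G f) (supp G g)) :
    ∃ z ∈ verts G f, z ∈ g := by
  rw [Finset.not_disjoint_iff] at h
  obtain ⟨e, hf, hg⟩ := h
  obtain ⟨u, v, w, rfl, hw, rfl⟩ := (mem_supp G).mp hf
  obtain ⟨u', v', w', rfl, hw', he⟩ := (mem_supp G).mp hg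
  rw [Sym2.eq_iff] at he
  refine ⟨u', ?_, by simp⟩
  rw [mem_verts_mk]
  rcases he with ⟨rfl, rfl⟩ | ⟨rfl, rfl⟩
  · exact Or.inl rfl
  · exact Or.inr (Or.inr hw)

/-- The weight of a pair in the local lemma. -/
noncomputable def wt (τ : ℕ) (x l : ℝ) (t : ℕ) : ℝ :=
  (if t < τ then x else 1 - x) ^ t / (1 - l) ^ (t + 2)

open Classical in
/-- The weight function on unordered pairs. -/
noncomputable def mu (τ : ℕ) (x l : ℝ) (f : Sym2 V) : ℝ :=
  if f ∉ G.edgeSet ∧ ¬ f.IsDiag then wt τ x l (tt G f) else 0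

lemma wt_nonneg {τ : ℕ} {x l : ℝ} (hx0 : 0 ≤ x) (hx1 : x ≤ 1 / 2) (hl : l < 1) (t : ℕ) :
    0 ≤ wt τ x l t := by
  unfold wt
  apply div_nonneg
  · apply pow_nonneg
    split_ifs <;> linarith
  · apply pow_nonneg
    linarith

lemma mu_nonneg {τ : ℕ} {x l : ℝ} (hx0 : 0 ≤ x) (hx1 : x ≤ 1 / 2) (hl : l < 1) (f : Sym2 V) :
    0 ≤ mu G τ x l f := by
  unfold mu
  split_ifs
  · exact wt_nonneg hx0 hx1 hl _
  · exact le_rfl

/-- Probability of the bad event. -/
lemma pr_bad (b : V → Bool) (Z : α → Prop) [DecidablePred Z] (q : ℝ) (hq0 : 0 ≤ q)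
    (hq1 : q ≤ 1)
    (hq : ((univ.filter Z).card : ℝ) / Fintype.card α = q) (τ : ℕ)
    (hb : ∀ u v, u ≠ v → ¬ G.Adj u v → (com G u v).card < τ → b u ≠ b v) (u v : V)
    (huv : u ≠ v) (hadj : ¬ G.Adj u v) :
    pr (bad G b Z s(u, v)) ≤
      (if (com G u v).card < τ then 2 * q * (1 - q) else 1 - 2 * q * (1 - q)) ^
        (com G u v).card := by
  have hx0 : 0 ≤ 2 * q * (1 - q) := by
    have : 0 ≤ 1 - q := by linarith
    positivity
  have hx1 : 2 * q * (1 - q) ≤ 1 / 2 := by nlinarith [sq_nonneg (q - 1 / 2)]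
  have hne : ∀ w ∈ com G u v, s(u, w) ≠ s(v, w) := by
    intro w hw h
    rw [Sym2.eq_iff] at h
    rcases h with ⟨h, _⟩ | ⟨h, _⟩
    · exact huv h
    · rw [mem_com] at hw
      subst h
      exact G.loopless.irrefl _ hw.1
  have hdis : ∀ j ∈ com G u v, ∀ k ∈ com G u v, j ≠ k →
      Disjoint ({s(u, j), s(v, j)} : Finset (Sym2 V)) {s(u, k), s(v, k)} := by
    intro j hj k hk hjk
    rw [mem_com] at hj hk
    have hju : j ≠ u := fun h => by subst h; exact G.loopless.irrefl _ hj.1
    have hjv : j ≠ v := fun h => by subst h; exact G.loopless.irrefl _ hj.2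
    rw [Finset.disjoint_left]
    intro e he he'
    simp only [mem_insert, mem_singleton] at he he'
    rcases he with rfl | rfl <;> rcases he' with he' | he' <;> rw [Sym2.eq_iff] at he' <;>
      rcases he' with ⟨h1, h2⟩ | ⟨h1, h2⟩
    · exact hjk h2
    · exact hju h2
    · exact huv h1
    · exact hjv h2
    · exact huv h1.symm
    · exact hju h2
    · exact hjk h2
    · exact hjv h2
  have hdep : ∀ (R : Prop → Prop → Prop) (j : V),
      DepOn (fun x : Sym2 V → α => R (Z (x s(u, j))) (Z (x s(v, j))))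
        ({s(u, j), s(v, j)} : Finset (Sym2 V)) := by
    intro R j x y hxy
    have h1 := hxy s(u, j) (by simp)
    have h2 := hxy s(v, j) (by simp)
    simp only [h1, h2]
  by_cases hbuv : b u = b v
  · have h1 : pr (bad G b Z s(u, v)) = (1 - 2 * q * (1 - q)) ^ (com G u v).card := by
      rw [← pr_forall (com G u v)
        (fun w (x : Sym2 V → α) => (Z (x s(u, w)) ↔ Z (x s(v, w))))
        (fun w => {s(u, w), s(v, w)}) (fun j _ => hdep (fun a b => (a ↔ b)) j) hdis
        (1 - 2 * q * (1 - q)) (fun j hj => pr_eq (hne j hj) Z q hq)]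
      apply pr_congr
      intro x
      rw [bad_mk]
      constructor
      · rintro ⟨_, _, h⟩ w hw
        have := (col_eq_iff b Z x u v w).mp (h w hw)
        exact this.mp hbuv
      · intro h
        exact ⟨huv, hadj, fun w hw => (col_eq_iff b Z x u v w).mpr
          ⟨fun _ => h w hw, fun _ => hbuv⟩⟩
    rw [h1]
    split_ifs with h2
    · exact absurd hbuv (hb u v huv hadj h2)
    · exact le_rfl
  · have h1 : pr (bad G b Z s(u, v)) = (2 * q * (1 - q)) ^ (com G u v).card := by
      rw [← pr_forall (com G u v)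
        (fun w (x : Sym2 V → α) => ¬ (Z (x s(u, w)) ↔ Z (x s(v, w))))
        (fun w => {s(u, w), s(v, w)}) (fun j _ => hdep (fun a b => ¬ (a ↔ b)) j) hdis
        (2 * q * (1 - q)) (fun j hj => pr_ne (hne j hj) Z q hq)]
      apply pr_congr
      intro x
      rw [bad_mk]
      constructor
      · rintro ⟨_, _, h⟩ w hw hz
        have := (col_eq_iff b Z x u v w).mp (h w hw)
        exact hbuv (this.mpr hz)
      · intro h
        exact ⟨huv, hadj, fun w hw => (col_eq_iff b Z x u v w).mpr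
          ⟨fun h' => absurd h' hbuv, fun h' => absurd h' (h w hw)⟩⟩
    rw [h1]
    split_ifs with h2
    · exact le_rfl
    · exact pow_le_pow_left₀ hx0 (by linarith) _

/-- Application of the local lemma: if at every vertex the weights of the non-adjacent pairs
sum to at most `l`, then some colouring has no bad pair. -/
theorem exists_colouring (b : V → Bool) (Z : α → Prop) [DecidablePred Z] (q : ℝ) (hq0 : 0 ≤ q)
    (hq1 : q ≤ 1)
    (hq : ((univ.filter Z).card : ℝ) / Fintype.card α = q) (τ : ℕ)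
    (hb : ∀ u v, u ≠ v → ¬ G.Adj u v → (com G u v).card < τ → b u ≠ b v)
    (l : ℝ) (hl1 : l < 1)
    (hsum : ∀ z : V, ∑ y ∈ univ.filter (fun y => z ≠ y ∧ ¬ G.Adj z y),
      wt τ (2 * q * (1 - q)) l (com G z y).card ≤ l) :
    ∃ c : Sym2 V → Bool, ∀ u v, u ≠ v → ¬ G.Adj u v →
      ∃ w, G.Adj u w ∧ G.Adj v w ∧ c s(u, w) ≠ c s(v, w) := by
  classical
  set x : ℝ := 2 * q * (1 - q) with hx
  have hx0 : 0 ≤ x := by
    have : 0 ≤ 1 - q := by linarith
    rw [hx]; positivity
  have hx1 : x ≤ 1 / 2 := by rw [hx]; nlinarith [sq_nonneg (q - 1 / 2)]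
  -- sum of weights at a vertex
  have hsum' : ∀ z : V, ∑ y : V, mu G τ x l s(z, y) ≤ l := by
    intro z
    refine le_trans (le_of_eq ?_) (hsum z)
    rw [Finset.sum_filter]
    apply Finset.sum_congr rfl
    intro y _
    unfold mu tt
    simp only [SimpleGraph.mem_edgeSet, Sym2.mk_isDiag_iff, Sym2.lift_mk]
    by_cases h1 : z = y
    · simp [h1]
    · by_cases h2 : G.Adj z y
      · simp [h1, h2]
      · simp [h1, h2]
  have hmu0 : ∀ f, 0 ≤ mu G τ x l f := mu_nonneg G hx0 hx1 hl1
  have hmul : ∀ f, mu G τ x l f ≤ l := by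
    intro f
    induction f with
    | h z y =>
      refine le_trans ?_ (hsum' z)
      exact Finset.single_le_sum (f := fun y => mu G τ x l s(z, y)) (fun y _ => hmu0 _)
        (mem_univ y)
  have hmu1 : ∀ f, mu G τ x l f < 1 := fun f => (hmul f).trans_lt hl1
  let Nz : V → Finset (Sym2 V) := fun z => univ.image (fun y => s(z, y))
  have hNz : ∀ z, 1 - l ≤ ∏ g ∈ Nz z, (1 - mu G τ x l g) := by
    intro z
    have h1 := one_sub_sum_le (Nz z) (mu G τ x l) hmu0 (fun f => (hmu1 f).le)
    have h2 : ∑ g ∈ Nz z, mu G τ x l g = ∑ y : V, mu G τ x l s(z, y) := by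
      apply Finset.sum_image
      intro y _ y' _ h
      have h' : s(z, y) = s(z, y') := h
      rw [Sym2.eq_iff] at h'
      rcases h' with ⟨_, h'⟩ | ⟨h1, h2⟩
      · exact h'
      · rw [h2, h1]
    rw [h2] at h1
    linarith [hsum' z]
  obtain ⟨ξ, hξ⟩ := local_lemma (bad G b Z) (supp G) (bad_dep G b Z) (mu G τ x l) hmu0 hmu1
    (fun f => (verts G f).biUnion Nz) (by
      intro f g _ h
      obtain ⟨z, hz, hzg⟩ := supp_disj G h
      rw [Finset.mem_biUnion]
      refine ⟨z, hz, ?_⟩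
      simp only [Nz, mem_image, mem_univ, true_and]
      obtain ⟨y, rfl⟩ := Sym2.mem_iff_exists.mp hzg
      exact ⟨y, rfl⟩) (by
      intro f
      induction f with
      | h u v =>
        by_cases hH : u ≠ v ∧ ¬ G.Adj u v
        swap
        · have h0 : pr (bad G b Z s(u, v)) = 0 := by
            rw [← pr_false (ι := Sym2 V) (α := α)]
            apply pr_congr
            intro x
            rw [bad_mk]
            tauto
          rw [h0]
          apply mul_nonneg (hmu0 _)
          apply Finset.prod_nonneg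
          intro g _
          linarith [hmu1 g]
        obtain ⟨huv, hadj⟩ := hH
        have h1 := pr_bad G b Z q hq0 hq1 hq τ hb u v huv hadj
        rw [← hx] at h1
        have h2 : (1 - l) ^ ((com G u v).card + 2) ≤
            ∏ g ∈ (verts G s(u, v)).biUnion Nz, (1 - mu G τ x l g) := by
          refine le_trans ?_ (prod_biUnion_ge _ _ _ (fun g => by linarith [hmu1 g])
            (fun g => by linarith [hmu0 g]))
          rw [← card_verts G u v huv, ← Finset.prod_const]
          apply Finset.prod_le_prod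
          · intro z _
            linarith
          · intro z _
            exact hNz z
        have h3 : mu G τ x l s(u, v) =
            (if (com G u v).card < τ then x else 1 - x) ^ (com G u v).card /
              (1 - l) ^ ((com G u v).card + 2) := by
          unfold mu tt wt
          simp only [SimpleGraph.mem_edgeSet, Sym2.mk_isDiag_iff, Sym2.lift_mk]
          rw [if_pos ⟨hadj, huv⟩]
          congr!
        have h4 : 0 < (1 - l) ^ ((com G u v).card + 2) := by
          apply pow_pos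
          linarith
        calc pr (bad G b Z s(u, v)) ≤ _ := h1
          _ = mu G τ x l s(u, v) * (1 - l) ^ ((com G u v).card + 2) := by
            rw [h3, div_mul_cancel₀ _ h4.ne']
          _ ≤ _ := mul_le_mul_of_nonneg_left h2 (hmu0 _))
  refine ⟨col b Z ξ, ?_⟩
  intro u v huv hadj
  have h := hξ s(u, v)
  rw [bad_mk] at h
  by_contra hcon
  push Not at hcon
  exact h ⟨huv, hadj, fun w hw => hcon w ((mem_com G).mp hw).1 ((mem_com G).mp hw).2⟩

end Colour

end Pool.Agent.Lib.MP_85f9db_co.H67
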