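import Mathlib

set_option autoImplicit false

/-! # The asymmetric Lovász local lemma for uniform product spaces -/

namespace Pool.Agent.Lib.MP_85f9db_co.H67

open Finset

section Pr

variable {ι : Type*} [Fintype ι] [DecidableEq ι] {α : Type*} [Fintype α]

open Classical in
/-- Probability of an event under the uniform measure on `ι → α`. -/
noncomputable def pr (P : (ι → α) → Prop) : ℝ :=
  ((univ.filter (fun x => P x)).card : ℝ) / (Fintype.card (ι → α) : ℝ)

lemma pr_def (P : (ι → α) → Prop) [DecidablePred P] :
    pr P = ((univ.filter (fun x => P x)).card : ℝ) / (Fintype.card (ι → α) : ℝ) := by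
  unfold pr
  congr!

lemma pr_nonneg (P : (ι → α) → Prop) : 0 ≤ pr P := by
  unfold pr; positivity

lemma pr_mono {P Q : (ι → α) → Prop} (h : ∀ x, P x → Q x) : pr P ≤ pr Q := by
  classical
  unfold pr
  apply div_le_div_of_nonneg_right _ (by positivity)
  apply Nat.cast_le.mpr
  apply Finset.card_le_card
  intro x hx
  simp only [mem_filter, mem_univ, true_and] at hx ⊢
  exact h x hx

lemma pr_congr {P Q : (ι → α) → Prop} (h : ∀ x, P x ↔ Q x) : pr P = pr Q :=
  le_antisymm (pr_mono fun x => (h x).1) (pr_mono fun x => (h x).2)

lemma pr_true [Nonempty α] : pr (fun _ : ι → α => True) = 1 := by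
  classical
  unfold pr
  have : (Fintype.card (ι → α) : ℝ) ≠ 0 := by
    exact_mod_cast Fintype.card_ne_zero
  simp only [filter_true, card_univ]
  exact div_self this

lemma pr_false : pr (fun _ : ι → α => False) = 0 := by
  classical
  unfold pr
  simp

/-- Splitting an event. -/
lemma pr_split (P Q : (ι → α) → Prop) :
    pr Q = pr (fun x => P x ∧ Q x) + pr (fun x => ¬ P x ∧ Q x) := by
  classical
  unfold pr
  rw [← add_div]
  congr 1
  rw [← Nat.cast_add, ← Finset.card_union_of_disjoint]
  · congr 2
    ext x
    simp only [mem_filter, mem_univ, true_and, mem_union]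
    tauto
  · rw [Finset.disjoint_left]
    intro x hx hx'
    simp only [mem_filter, mem_univ, true_and] at hx hx'
    exact hx'.1 hx.1

lemma pr_not [Nonempty α] (P : (ι → α) → Prop) : pr (fun x => ¬ P x) = 1 - pr P := by
  have h := pr_split P (fun _ : ι → α => True)
  rw [pr_true] at h
  simp only [and_true] at h
  linarith

/-- `P` depends only on the coordinates in `S`. -/
def DepOn (P : (ι → α) → Prop) (S : Finset ι) : Prop :=
  ∀ x y : ι → α, (∀ i ∈ S, x i = y i) → (P x ↔ P y)

omit [Fintype ι] [DecidableEq ι] [Fintype α] in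
lemma DepOn.mono {P : (ι → α) → Prop} {S S' : Finset ι} (h : DepOn P S) (hs : S ⊆ S') :
    DepOn P S' := fun x y hxy => h x y (fun i hi => hxy i (hs hi))

/-- Independence of events depending on disjoint sets of coordinates. -/
lemma pr_and [Nonempty α] {P Q : (ι → α) → Prop} {S S' : Finset ι} (hP : DepOn P S)
    (hQ : DepOn Q S') (hd : Disjoint S S') :
    pr (fun x => P x ∧ Q x) = pr P * pr Q := by
  classical
  have key : (univ.filter (fun x : ι → α => P x ∧ Q x)).card * Fintype.card (ι → α)
      = (univ.filter (fun x : ι → α => P x)).card * (univ.filter (fun x : ι → α => Q x)).card := by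
    rw [← Finset.card_univ, ← Finset.card_product, ← Finset.card_product]
    apply Finset.card_bij'
      (i := fun (p : (ι → α) × (ι → α)) _ => (S.piecewise p.1 p.2, S.piecewise p.2 p.1))
      (j := fun (p : (ι → α) × (ι → α)) _ => (S.piecewise p.1 p.2, S.piecewise p.2 p.1))
    · rintro ⟨x, y⟩ h
      simp only [mem_product, mem_filter, mem_univ, true_and, and_true] at h ⊢
      refine ⟨(hP _ _ ?_).mp h.1, (hQ _ _ ?_).mp h.2⟩
      · intro i hi
        simp [hi]
      · intro i hi
        have : i ∉ S := fun h' => Finset.disjoint_left.mp hd h' hi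
        simp [this]
    · rintro ⟨x, y⟩ h
      simp only [mem_product, mem_filter, mem_univ, true_and, and_true] at h ⊢
      refine ⟨(hP _ _ ?_).mp h.1, (hQ _ _ ?_).mp h.2⟩
      · intro i hi
        simp [hi]
      · intro i hi
        have : i ∉ S := fun h' => Finset.disjoint_left.mp hd h' hi
        simp [this]
    · rintro ⟨x, y⟩ _
      simp only [Prod.mk.injEq]
      constructor <;> · funext i; by_cases hi : i ∈ S <;> simp [hi]
    · rintro ⟨x, y⟩ _
      simp only [Prod.mk.injEq]
      constructor <;> · funext i; by_cases hi : i ∈ S <;> simp [hi]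
  have h0 : (Fintype.card (ι → α) : ℝ) ≠ 0 := by
    exact_mod_cast Fintype.card_ne_zero
  rw [pr_def, pr_def, pr_def]
  rw [div_mul_div_comm, div_eq_div_iff h0 (mul_ne_zero h0 h0)]
  have key' : ((univ.filter (fun x : ι → α => P x ∧ Q x)).card : ℝ) * Fintype.card (ι → α)
      = (univ.filter (fun x : ι → α => P x)).card * (univ.filter (fun x : ι → α => Q x)).card := by
    exact_mod_cast key
  rw [← mul_assoc, key']

/-- Product formula for several events depending on pairwise disjoint sets of coordinates. -/
lemma pr_forall [Nonempty α] {J : Type*} [DecidableEq J] (T : Finset J)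
    (P : J → (ι → α) → Prop) (S : J → Finset ι) (hP : ∀ j ∈ T, DepOn (P j) (S j))
    (hd : ∀ j ∈ T, ∀ k ∈ T, j ≠ k → Disjoint (S j) (S k)) (p : ℝ)
    (hp : ∀ j ∈ T, pr (P j) = p) :
    pr (fun x => ∀ j ∈ T, P j x) = p ^ T.card := by
  induction T using Finset.induction_on with
  | empty =>
    simp only [notMem_empty, false_imp_iff, implies_true, card_empty, pow_zero]
    exact pr_true
  | insert a T ha ih =>
    rw [Finset.card_insert_of_notMem ha, pow_succ, mul_comm]
    rw [← ih (fun j hj => hP j (mem_insert_of_mem hj))
      (fun j hj k hk => hd j (mem_insert_of_mem hj) k (mem_insert_of_mem hk))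
      (fun j hj => hp j (mem_insert_of_mem hj)), ← hp a (mem_insert_self a T)]
    rw [← pr_and (S := S a) (S' := T.biUnion S) (hP a (mem_insert_self a T))]
    · apply pr_congr
      intro x
      simp only [mem_insert, forall_eq_or_imp]
    · intro x y hxy
      apply forall₂_congr
      intro j hj
      exact hP j (mem_insert_of_mem hj) x y
        (fun i hi => hxy i (Finset.mem_biUnion.mpr ⟨j, hj, hi⟩))
    · rw [Finset.disjoint_biUnion_right]
      intro j hj
      apply hd a (mem_insert_self a T) j (mem_insert_of_mem hj)
      rintro rfl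
      exact ha hj

/-- Probability of an event depending on one coordinate. -/
lemma pr_coord [Nonempty α] (e : ι) (Z : α → Prop) [DecidablePred Z] :
    pr (fun x : ι → α => Z (x e)) = ((univ.filter Z).card : ℝ) / Fintype.card α := by
  classical
  rw [pr_def]
  have h1 : (univ.filter (fun x : ι → α => Z (x e))) =
      Fintype.piFinset (fun i => if i = e then univ.filter Z else univ) := by
    ext x
    simp only [mem_filter, mem_univ, true_and, Fintype.mem_piFinset]
    constructor
    · intro h i
      by_cases hi : i = e
      · subst hi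
        simp [h]
      · simp [hi]
    · intro h
      have := h e
      simpa using this
  have hc : (Fintype.card α : ℝ) ≠ 0 := by exact_mod_cast Fintype.card_ne_zero
  rw [h1, Fintype.card_piFinset, Fintype.card_fun]
  have h2 : ∏ i : ι, (if i = e then univ.filter Z else (univ : Finset α)).card
      = (univ.filter Z).card * Fintype.card α ^ (Fintype.card ι - 1) := by
    rw [← Finset.mul_prod_erase univ _ (mem_univ e)]
    congr 1
    · simp
    · rw [Finset.prod_congr rfl (g := fun _ => Fintype.card α)]
      · rw [Finset.prod_const, Finset.card_erase_of_mem (mem_univ e), Finset.card_univ]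
      · intro i hi
        rw [if_neg (Finset.ne_of_mem_erase hi), Finset.card_univ]
  obtain ⟨m, hm⟩ : ∃ m, Fintype.card ι = m + 1 := by
    have : 0 < Fintype.card ι := Fintype.card_pos_iff.mpr ⟨e⟩
    exact ⟨Fintype.card ι - 1, by omega⟩
  rw [h2, hm, Nat.add_sub_cancel]
  push_cast
  rw [pow_succ]
  field_simp

/-- Two distinct coordinates: the probability that exactly one of them is a noise value. -/
lemma pr_ne [Nonempty α] {e f : ι} (hef : e ≠ f) (Z : α → Prop) [DecidablePred Z] (q : ℝ)
    (hq : ((univ.filter Z).card : ℝ) / Fintype.card α = q) :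
    pr (fun x : ι → α => ¬ (Z (x e) ↔ Z (x f))) = 2 * q * (1 - q) := by
  have hde : ∀ (g : ι) (R : α → Prop), DepOn (fun x : ι → α => R (x g)) {g} := by
    intro g R x y hxy
    simp only [hxy g (Finset.mem_singleton_self g)]
  have h1 : pr (fun x : ι → α => Z (x e) ∧ ¬ Z (x f)) = q * (1 - q) := by
    rw [pr_and (S := {e}) (S' := {f}) (hde e Z) (hde f (fun a => ¬ Z a))
      (by simpa using hef), pr_not, pr_coord, pr_coord, hq]
  have h2 : pr (fun x : ι → α => ¬ Z (x e) ∧ Z (x f)) = (1 - q) * q := by
    rw [pr_and (S := {e}) (S' := {f}) (hde e (fun a => ¬ Z a)) (hde f Z)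
      (by simpa using hef), pr_not, pr_coord, pr_coord, hq]
  rw [pr_split (fun x : ι → α => Z (x e))]
  rw [pr_congr (Q := fun x : ι → α => Z (x e) ∧ ¬ Z (x f)) (by intro x; tauto), h1]
  rw [pr_congr (Q := fun x : ι → α => ¬ Z (x e) ∧ Z (x f)) (by intro x; tauto), h2]
  ring

lemma pr_eq [Nonempty α] {e f : ι} (hef : e ≠ f) (Z : α → Prop) [DecidablePred Z] (q : ℝ)
    (hq : ((univ.filter Z).card : ℝ) / Fintype.card α = q) :
    pr (fun x : ι → α => (Z (x e) ↔ Z (x f))) = 1 - 2 * q * (1 - q) := by
  have h := pr_not (fun x : ι → α => ¬ (Z (x e) ↔ Z (x f)))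
  rw [pr_ne hef Z q hq] at h
  rw [← h]
  apply pr_congr
  intro x
  tauto

end Pr

section LLL

variable {ι : Type*} [Fintype ι] [DecidableEq ι] {α : Type*} [Fintype α]

/-- The (asymmetric) Lovász local lemma. -/
theorem local_lemma [Nonempty α] {J : Type*} [Fintype J] [DecidableEq J]
    (A : J → (ι → α) → Prop) (S : J → Finset ι) (hA : ∀ j, DepOn (A j) (S j))
    (μ : J → ℝ) (h0 : ∀ j, 0 ≤ μ j) (h1 : ∀ j, μ j < 1)
    (N : J → Finset J) (hN : ∀ j k, k ≠ j → ¬ Disjoint (S j) (S k) → k ∈ N j)
    (hp : ∀ j, pr (A j) ≤ μ j * ∏ k ∈ N j, (1 - μ k)) :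
    ∃ x : ι → α, ∀ j, ¬ A j x := by
  classical
  let c : Finset J → ℝ := fun T => pr (fun x => ∀ k ∈ T, ¬ A k x)
  let e : J → Finset J → ℝ := fun j T => pr (fun x => A j x ∧ ∀ k ∈ T, ¬ A k x)
  have c0 : ∀ T, 0 ≤ c T := fun T => pr_nonneg _
  have hins : ∀ (T : Finset J) (j : J), c T = e j T + c (insert j T) := by
    intro T j
    simp only [c, e]
    rw [pr_split (A j)]
    congr 1
    apply pr_congr
    intro x
    simp only [mem_insert, forall_eq_or_imp]
  have key : ∀ T : Finset J, ∀ j, j ∉ T → e j T ≤ μ j * c T := by
    intro T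
    induction T using Finset.strongInduction with
    | H T ih =>
      intro j hj
      set T1 := T.filter (fun k => ¬ Disjoint (S j) (S k)) with hT1
      set T2 := T.filter (fun k => Disjoint (S j) (S k)) with hT2
      have hT : T1 ∪ T2 = T := by
        ext k
        simp only [hT1, hT2, mem_union, mem_filter]
        tauto
      have h2 : e j T ≤ pr (A j) * c T2 := by
        calc e j T ≤ e j T2 := by
              apply pr_mono
              intro x hx
              exact ⟨hx.1, fun k hk => hx.2 k (Finset.mem_filter.mp hk).1⟩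
          _ = pr (A j) * c T2 := by
              apply pr_and (S := S j) (S' := T2.biUnion S) (hA j)
              · intro x y hxy
                apply forall₂_congr
                intro k hk
                rw [hA k x y (fun i hi => hxy i (Finset.mem_biUnion.mpr ⟨k, hk, hi⟩))]
              · rw [Finset.disjoint_biUnion_right]
                intro k hk
                exact (Finset.mem_filter.mp hk).2
      have h3 : ∀ U : Finset J, U ⊆ T1 → (∏ k ∈ U, (1 - μ k)) * c T2 ≤ c (U ∪ T2) := by
        intro U
        induction U using Finset.induction_on with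
        | empty => intro _; simp
        | insert a U ha ihU =>
          intro hU
          have haT1 : a ∈ T1 := hU (mem_insert_self a U)
          have hUT1 : U ⊆ T1 := fun k hk => hU (mem_insert_of_mem hk)
          have haT2 : a ∉ T2 := by
            intro h
            exact (Finset.mem_filter.mp haT1).2 (Finset.mem_filter.mp h).2
          have haU : a ∉ U ∪ T2 := by
            simp only [mem_union, not_or]
            exact ⟨ha, haT2⟩
          have hss : U ∪ T2 ⊂ T := by
            rw [Finset.ssubset_iff_of_subset]
            · exact ⟨a, (Finset.mem_filter.mp haT1).1, haU⟩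
            · rw [← hT]
              exact Finset.union_subset_union hUT1 (Finset.Subset.refl _)
          have h5 := ih (U ∪ T2) hss a haU
          have h6 := hins (U ∪ T2) a
          rw [Finset.prod_insert ha, Finset.insert_union]
          have h7 := ihU hUT1
          have h8 : 0 ≤ 1 - μ a := by linarith [h1 a]
          nlinarith
      have h4 := h3 T1 (Finset.Subset.refl _)
      rw [hT] at h4
      have h5 : ∏ k ∈ N j, (1 - μ k) ≤ ∏ k ∈ T1, (1 - μ k) := by
        apply Finset.prod_le_prod_of_subset_of_le_one
        · intro k hk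
          obtain ⟨hk1, hk2⟩ := Finset.mem_filter.mp hk
          exact hN j k (fun h => hj (h ▸ hk1)) hk2
        · intro k _
          linarith [h1 k]
        · intro k _ _
          linarith [h0 k]
      calc e j T ≤ pr (A j) * c T2 := h2
        _ ≤ (μ j * ∏ k ∈ N j, (1 - μ k)) * c T2 :=
            mul_le_mul_of_nonneg_right (hp j) (c0 _)
        _ ≤ (μ j * ∏ k ∈ T1, (1 - μ k)) * c T2 := by
            apply mul_le_mul_of_nonneg_right _ (c0 _)
            exact mul_le_mul_of_nonneg_left h5 (h0 j)
        _ = μ j * ((∏ k ∈ T1, (1 - μ k)) * c T2) := by ring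
        _ ≤ μ j * c T := mul_le_mul_of_nonneg_left h4 (h0 j)
  have pos : ∀ T : Finset J, 0 < c T := by
    intro T
    induction T using Finset.induction_on with
    | empty =>
      have : c ∅ = 1 := by
        simp only [c]
        rw [← pr_true (ι := ι) (α := α)]
        apply pr_congr
        intro x
        simp
      rw [this]
      norm_num
    | insert a T ha ih =>
      have h5 := key T a ha
      have h6 := hins T a
      have h7 := h1 a
      nlinarith
  have hfin := pos univ
  by_contra hcon
  push Not at hcon
  have : c univ = 0 := by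
    simp only [c]
    rw [← pr_false (ι := ι) (α := α)]
    apply pr_congr
    intro x
    simp only [mem_univ, forall_const, iff_false, not_forall, not_not]
    exact hcon x
  linarith

end LLL

end Pool.Agent.Lib.MP_85f9db_co.H67
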