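import Mathlib

set_option autoImplicit false

/-! # Numerical inequalities -/

namespace Pool.Agent.Lib.MP_85f9db_co.H67

open Finset

/-- The quantity that bounds the sum of weights at a vertex (separated and unseparated part). -/
noncomputable def SB (c ρ1 ρ2 : ℝ) (τ : ℕ) : ℝ :=
  ((4 * c * 16 + (-27 * c)) * ρ1 ^ 16 + 4 * c * ρ1 ^ 17 / (1 - ρ1)) +
  ((4 * c * τ + (-27 * c)) * ρ2 ^ τ + 4 * c * ρ2 ^ (τ + 1) / (1 - ρ2))

/-- First regime : `16 ≤ τ ≤ 22`, noise rate `1/2`. -/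
lemma num1 (τ : ℕ) (h : τ ≤ 22) :
    ((4 * (2 * (τ : ℝ) - 14) * 16 + (-27 * (2 * (τ : ℝ) - 14))) * (19 / 36 : ℝ) ^ 16
      + 4 * (2 * (τ : ℝ) - 14) * (19 / 36 : ℝ) ^ 17 / (1 - 19 / 36)) / (1 - 1 / 19) ^ 2
      ≤ 1 / 19 := by
  have h1 : (τ : ℝ) ≤ 22 := by exact_mod_cast h
  have h2 : 2 * (τ : ℝ) - 14 ≤ 30 := by linarith
  set c := 2 * (τ : ℝ) - 14 with hc
  have h3 : (4 * c * 16 + (-27 * c)) * (19 / 36 : ℝ) ^ 16
      + 4 * c * (19 / 36 : ℝ) ^ 17 / (1 - 19 / 36)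
      = c * (37 * (19 / 36 : ℝ) ^ 16 + 4 * (19 / 36 : ℝ) ^ 17 / (1 - 19 / 36)) := by ring
  rw [h3, div_le_iff₀ (by norm_num)]
  calc c * (37 * (19 / 36 : ℝ) ^ 16 + 4 * (19 / 36 : ℝ) ^ 17 / (1 - 19 / 36))
      ≤ 30 * (37 * (19 / 36 : ℝ) ^ 16 + 4 * (19 / 36 : ℝ) ^ 17 / (1 - 19 / 36)) :=
        mul_le_mul_of_nonneg_right h2 (by norm_num)
    _ ≤ 1 / 19 * (1 - 1 / 19) ^ 2 := by norm_num

/-- Decay of the unseparated part. -/
lemma decay (ρ : ℝ) (h0 : 0 ≤ ρ) (h1 : ρ ≤ 2 / 3) (m τ : ℕ) (hm : 23 ≤ m) (hτ : m ≤ τ) :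
    (2 * (τ : ℝ) - 14) * (4 * (τ : ℝ) - 27) * ρ ^ τ ≤
      (2 * (m : ℝ) - 14) * (4 * (m : ℝ) - 27) * ρ ^ m := by
  induction τ, hτ using Nat.le_induction with
  | base => exact le_rfl
  | succ n hn ih =>
    refine le_trans ?_ ih
    have h2 : (23 : ℝ) ≤ n := by exact_mod_cast hm.trans hn
    rw [pow_succ]
    have h3 : 0 ≤ ρ ^ n := pow_nonneg h0 n
    push_cast
    have h4 : (2 * ((n : ℝ) + 1) - 14) * (4 * ((n : ℝ) + 1) - 27) * ρ ≤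
        (2 * (n : ℝ) - 14) * (4 * (n : ℝ) - 27) := by
      have h5 : 0 ≤ (2 * ((n : ℝ) + 1) - 14) * (4 * ((n : ℝ) + 1) - 27) := by
        apply mul_nonneg <;> linarith
      calc (2 * ((n : ℝ) + 1) - 14) * (4 * ((n : ℝ) + 1) - 27) * ρ
          ≤ (2 * ((n : ℝ) + 1) - 14) * (4 * ((n : ℝ) + 1) - 27) * (2 / 3) :=
            mul_le_mul_of_nonneg_left h1 h5
        _ ≤ _ := by nlinarith
    calc (2 * ((n : ℝ) + 1) - 14) * (4 * ((n : ℝ) + 1) - 27) * (ρ ^ n * ρ)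
        = ((2 * ((n : ℝ) + 1) - 14) * (4 * ((n : ℝ) + 1) - 27) * ρ) * ρ ^ n := by ring
      _ ≤ (2 * (n : ℝ) - 14) * (4 * (n : ℝ) - 27) * ρ ^ n :=
          mul_le_mul_of_nonneg_right h4 h3

/-- Middle regimes. -/
lemma num_mid (τ m m' : ℕ) (ρ1 ρ2 l : ℝ) (hm : 23 ≤ m) (hτ : m ≤ τ) (hτ' : τ ≤ m')
    (h10 : 0 ≤ ρ1) (h11 : ρ1 < 1) (h20 : 0 ≤ ρ2) (h21 : ρ2 ≤ 2 / 3) (hl : l < 1)
    (hnum : (2 * (m' : ℝ) - 14) * (37 * ρ1 ^ 16 + 4 * ρ1 ^ 17 / (1 - ρ1)) +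
      (2 * (m : ℝ) - 14) * (4 * (m : ℝ) - 27) * ρ2 ^ m * (1 + 1 / 6) ≤ l * (1 - l) ^ 2) :
    SB (2 * (τ : ℝ) - 14) ρ1 ρ2 τ / (1 - l) ^ 2 ≤ l := by
  have hl' : 0 < (1 - l) ^ 2 := by
    apply pow_pos
    linarith
  rw [div_le_iff₀ hl']
  refine le_trans ?_ hnum
  have hm' : (23 : ℝ) ≤ m := by exact_mod_cast hm
  have hmt : (m : ℝ) ≤ τ := by exact_mod_cast hτ
  have htm : (τ : ℝ) ≤ m' := by exact_mod_cast hτ'
  have h1 : 0 ≤ 37 * ρ1 ^ 16 + 4 * ρ1 ^ 17 / (1 - ρ1) := by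
    have : 0 < 1 - ρ1 := by linarith
    positivity
  have h2 : (2 * (τ : ℝ) - 14) * (37 * ρ1 ^ 16 + 4 * ρ1 ^ 17 / (1 - ρ1)) ≤
      (2 * (m' : ℝ) - 14) * (37 * ρ1 ^ 16 + 4 * ρ1 ^ 17 / (1 - ρ1)) :=
    mul_le_mul_of_nonneg_right (by linarith) h1
  have h3 := decay ρ2 h20 h21 m τ hm hτ
  have h4 : 4 * (2 * (τ : ℝ) - 14) * ρ2 ^ (τ + 1) / (1 - ρ2) ≤
      (2 * (τ : ℝ) - 14) * (4 * (τ : ℝ) - 27) * ρ2 ^ τ * (1 / 6) := by
    have h5 : 0 < 1 - ρ2 := by linarith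
    rw [div_le_iff₀ h5, pow_succ]
    have h6 : 0 ≤ (2 * (τ : ℝ) - 14) * ρ2 ^ τ :=
      mul_nonneg (by linarith) (pow_nonneg h20 _)
    have h7 : 4 * ρ2 ≤ (4 * (τ : ℝ) - 27) * (1 / 6) * (1 - ρ2) := by
      have h8 : 65 ≤ 4 * (τ : ℝ) - 27 := by linarith
      nlinarith
    calc 4 * (2 * (τ : ℝ) - 14) * (ρ2 ^ τ * ρ2)
        = ((2 * (τ : ℝ) - 14) * ρ2 ^ τ) * (4 * ρ2) := by ring
      _ ≤ ((2 * (τ : ℝ) - 14) * ρ2 ^ τ) * ((4 * (τ : ℝ) - 27) * (1 / 6) * (1 - ρ2)) :=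
          mul_le_mul_of_nonneg_left h7 h6
      _ = _ := by ring
  unfold SB
  have h8 : (4 * (2 * (τ : ℝ) - 14) * 16 + (-27 * (2 * (τ : ℝ) - 14))) * ρ1 ^ 16
      + 4 * (2 * (τ : ℝ) - 14) * ρ1 ^ 17 / (1 - ρ1) =
      (2 * (τ : ℝ) - 14) * (37 * ρ1 ^ 16 + 4 * ρ1 ^ 17 / (1 - ρ1)) := by ring
  have h9 : (4 * (2 * (τ : ℝ) - 14) * (τ : ℝ) + (-27 * (2 * (τ : ℝ) - 14))) * ρ2 ^ τ =
      (2 * (τ : ℝ) - 14) * (4 * (τ : ℝ) - 27) * ρ2 ^ τ := by ring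
  rw [h8, h9]
  nlinarith

/-- Last regime: `y = 1 / ⌊√τ⌋`. -/
lemma num_last (τ : ℕ) (y ρ1 ρ2 : ℝ) (hy0 : 0 < y) (hy : y ≤ 1 / 37)
    (hτ1 : 1 ≤ (τ : ℝ) * y ^ 2) (hτ2 : (τ : ℝ) * y ^ 2 ≤ (1 + y) ^ 2)
    (h10 : 0 ≤ ρ1) (h11 : ρ1 ≤ 2 * y) (h20 : 0 ≤ ρ2) (h21 : ρ2 ≤ 1 - 3 / 2 * y) :
    SB (2 * (τ : ℝ) - 14) ρ1 ρ2 τ / (1 - y / 4) ^ 2 ≤ y / 4 := by
  have hτ0 : (0 : ℝ) ≤ τ := Nat.cast_nonneg τ
  have hy2 : (1 + y) ^ 2 ≤ 1.06 := by nlinarith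
  have hc2 : (τ : ℝ) * y ^ 2 ≤ 1.06 := hτ2.trans hy2
  -- bound on the power of ρ2
  have he : ρ2 ^ τ ≤ 62930 * y ^ 10 := by
    have h1 : ρ2 ≤ Real.exp (-(3 / 2 * y)) := by
      refine h21.trans ?_
      have := Real.add_one_le_exp (-(3 / 2 * y))
      linarith
    have h2 : ρ2 ^ τ ≤ Real.exp (-(3 / 2 * y)) ^ τ := pow_le_pow_left₀ h20 h1 τ
    rw [← Real.exp_nat_mul] at h2
    have h3 : (τ : ℝ) * -(3 / 2 * y) ≤ -(3 / 2 / y) := by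
      have h4 : 1 / y ≤ (τ : ℝ) * y := by
        rw [div_le_iff₀ hy0]
        nlinarith
      have h5 : 3 / 2 / y = 3 / 2 * (1 / y) := by ring
      rw [h5]
      nlinarith
    have h4 : Real.exp ((τ : ℝ) * -(3 / 2 * y)) ≤ Real.exp (-(3 / 2 / y)) :=
      Real.exp_le_exp.mpr h3
    have h5 : (3 / 2 / y) ^ 10 / (Nat.factorial 10 : ℕ) ≤ Real.exp (3 / 2 / y) :=
      Real.pow_div_factorial_le_exp _ (by positivity) 10
    have h6 : Real.exp (-(3 / 2 / y)) ≤ 62930 * y ^ 10 := by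
      rw [Real.exp_neg]
      have h7 : (0 : ℝ) < (3 / 2 / y) ^ 10 / (Nat.factorial 10 : ℕ) := by positivity
      refine (inv_anti₀ h7 h5).trans ?_
      rw [show (Nat.factorial 10 : ℕ) = 3628800 from rfl]
      rw [div_pow, inv_div]
      push_cast
      rw [div_div_eq_mul_div, div_le_iff₀ (by positivity)]
      have : (0 : ℝ) ≤ y ^ 10 := by positivity
      nlinarith
    exact h2.trans (h4.trans h6)
  have he0 : 0 ≤ ρ2 ^ τ := pow_nonneg h20 τ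
  set e := ρ2 ^ τ with hedef
  set c := 2 * (τ : ℝ) - 14 with hc
  have hτ14 : (14 : ℝ) ≤ τ := by
    by_contra hcon
    push Not at hcon
    have : (τ : ℝ) * y ^ 2 < 1 := by
      have h1 : y ^ 2 ≤ (1 / 37) ^ 2 := pow_le_pow_left₀ hy0.le hy 2
      nlinarith
    linarith
  have hc0 : 0 ≤ c := by rw [hc]; linarith
  have hcy : c * y ^ 2 ≤ 2.12 := by
    have : c * y ^ 2 ≤ 2 * (τ : ℝ) * y ^ 2 := by
      apply mul_le_mul_of_nonneg_right _ (by positivity)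
      rw [hc]; linarith
    linarith
  have hr1 : ρ1 ≤ 2 / 37 := by linarith
  have y5 : y ^ 5 ≤ (1 / 37) ^ 5 := pow_le_pow_left₀ hy0.le hy 5
  have y6 : y ^ 6 ≤ (1 / 37) ^ 6 := pow_le_pow_left₀ hy0.le hy 6
  have y13 : y ^ 13 ≤ (1 / 37) ^ 13 := pow_le_pow_left₀ hy0.le hy 13
  have y14 : y ^ 14 ≤ (1 / 37) ^ 14 := pow_le_pow_left₀ hy0.le hy 14
  -- T1
  have T1 : 37 * c * ρ1 ^ 16 ≤ y / 1000 := by
    have h1 : ρ1 ^ 16 ≤ (2 * y) ^ 16 := pow_le_pow_left₀ h10 h11 16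
    calc 37 * c * ρ1 ^ 16 ≤ 37 * c * (2 * y) ^ 16 :=
          mul_le_mul_of_nonneg_left h1 (by positivity)
      _ = 37 * 65536 * (c * y ^ 2) * y ^ 13 * y := by ring
      _ ≤ 37 * 65536 * 2.12 * (1 / 37) ^ 13 * y := by
          apply mul_le_mul_of_nonneg_right _ hy0.le
          apply mul_le_mul _ y13 (by positivity) (by norm_num)
          nlinarith
      _ ≤ y / 1000 := by
          have : 37 * 65536 * 2.12 * (1 / 37 : ℝ) ^ 13 ≤ 1 / 1000 := by norm_num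
          nlinarith
  have T2 : 4 * c * ρ1 ^ 17 / (1 - ρ1) ≤ y / 1000 := by
    have h1 : ρ1 ^ 17 ≤ (2 * y) ^ 17 := pow_le_pow_left₀ h10 h11 17
    rw [div_le_iff₀ (by linarith)]
    calc 4 * c * ρ1 ^ 17 ≤ 4 * c * (2 * y) ^ 17 :=
          mul_le_mul_of_nonneg_left h1 (by positivity)
      _ = 4 * 131072 * (c * y ^ 2) * y ^ 14 * y := by ring
      _ ≤ 4 * 131072 * 2.12 * (1 / 37) ^ 14 * y := by
          apply mul_le_mul_of_nonneg_right _ hy0.le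
          apply mul_le_mul _ y14 (by positivity) (by norm_num)
          nlinarith
      _ ≤ y / 1000 * (1 - 2 / 37) := by
          have : 4 * 131072 * 2.12 * (1 / 37 : ℝ) ^ 14 ≤ 1 / 1000 * (1 - 2 / 37) := by norm_num
          nlinarith
      _ ≤ y / 1000 * (1 - ρ1) := by
          apply mul_le_mul_of_nonneg_left _ (by positivity)
          linarith
  have T3 : 4 * c * τ * e ≤ y / 100 := by
    calc 4 * c * τ * e ≤ 4 * c * τ * (62930 * y ^ 10) :=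
          mul_le_mul_of_nonneg_left he (by positivity)
      _ = 4 * 62930 * (c * y ^ 2) * ((τ : ℝ) * y ^ 2) * y ^ 5 * y := by ring
      _ ≤ 4 * 62930 * 2.12 * 1.06 * (1 / 37) ^ 5 * y := by
          apply mul_le_mul_of_nonneg_right _ hy0.le
          apply mul_le_mul _ y5 (by positivity) (by norm_num)
          apply mul_le_mul _ hc2 (by positivity) (by norm_num)
          nlinarith
      _ ≤ y / 100 := by
          have : 4 * 62930 * 2.12 * 1.06 * (1 / 37 : ℝ) ^ 5 ≤ 1 / 100 := by norm_num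
          nlinarith
  have T4 : 4 * c * ρ2 ^ (τ + 1) / (1 - ρ2) ≤ y / 1000 := by
    rw [div_le_iff₀ (by linarith), pow_succ, ← hedef]
    have hr2 : ρ2 ≤ 1 := by linarith
    calc 4 * c * (e * ρ2) ≤ 4 * c * (e * 1) := by
          apply mul_le_mul_of_nonneg_left _ (by positivity)
          exact mul_le_mul_of_nonneg_left hr2 he0
      _ ≤ 4 * c * (62930 * y ^ 10) := by
          rw [mul_one]
          exact mul_le_mul_of_nonneg_left he (by positivity)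
      _ = 4 * 62930 * (c * y ^ 2) * y ^ 6 * (y * y) := by ring
      _ ≤ 4 * 62930 * 2.12 * (1 / 37) ^ 6 * (y * y) := by
          apply mul_le_mul_of_nonneg_right _ (by positivity)
          apply mul_le_mul _ y6 (by positivity) (by norm_num)
          nlinarith
      _ ≤ 1 / 1000 * (3 / 2) * (y * y) := by
          apply mul_le_mul_of_nonneg_right _ (by positivity)
          norm_num
      _ = y / 1000 * (3 / 2 * y) := by ring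
      _ ≤ y / 1000 * (1 - ρ2) := by
          apply mul_le_mul_of_nonneg_left _ (by positivity)
          linarith
  have hl' : 0 < (1 - y / 4) ^ 2 := by
    apply pow_pos
    linarith
  rw [div_le_iff₀ hl']
  unfold SB
  have h8 : (4 * c * 16 + (-27 * c)) * ρ1 ^ 16 = 37 * c * ρ1 ^ 16 := by ring
  have h9 : (4 * c * (τ : ℝ) + (-27 * c)) * ρ2 ^ τ ≤ 4 * c * τ * e := by
    rw [← hedef]
    apply mul_le_mul_of_nonneg_right _ he0
    nlinarith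
  have h10' : y / 4 * (1 - y / 4) ^ 2 ≥ y / 4 * (1 / 2) := by
    apply mul_le_mul_of_nonneg_left _ (by positivity)
    nlinarith
  rw [h8]
  linarith

end Pool.Agent.Lib.MP_85f9db_co.H67
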