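import Mathlib

set_option autoImplicit false

/-! # Sums of geometric weights against linear counting bounds -/

namespace Pool.Agent.Lib.MP_85f9db_co.H67

open Finset

/-- Abel summation: if at most `A s + B` elements have parameter at most `s`. -/
lemma geo_sum {V : Type*} (Y : Finset V) (t : V → ℕ) (m : ℕ) (hm : ∀ y ∈ Y, m ≤ t y)
    (A B : ℝ) (hA : 0 ≤ A)
    (hF : ∀ s, m ≤ s → ((Y.filter (fun y => t y ≤ s)).card : ℝ) ≤ A * s + B)
    (ρ : ℝ) (h0 : 0 ≤ ρ) (h1 : ρ < 1) :
    ∑ y ∈ Y, ρ ^ t y ≤ (A * m + B) * ρ ^ m + A * ρ ^ (m + 1) / (1 - ρ) := by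
  classical
  have h1' : 0 < 1 - ρ := by linarith
  have key : ∀ N, m ≤ N → ∑ y ∈ Y.filter (fun y => t y ≤ N), ρ ^ t y ≤
      (A * m + B) * ρ ^ m + A * (ρ ^ (m + 1) - ρ ^ (N + 1)) / (1 - ρ)
        - (A * N + B - ((Y.filter (fun y => t y ≤ N)).card : ℝ)) * ρ ^ N := by
    intro N hN
    induction N, hN using Nat.le_induction with
    | base =>
      have h2 : ∑ y ∈ Y.filter (fun y => t y ≤ m), ρ ^ t y =
          ((Y.filter (fun y => t y ≤ m)).card : ℝ) * ρ ^ m := by
        rw [Finset.sum_congr rfl (g := fun _ => ρ ^ m)]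
        · rw [Finset.sum_const, nsmul_eq_mul]
        · intro y hy
          rw [Finset.mem_filter] at hy
          have : t y = m := le_antisymm hy.2 (hm y hy.1)
          rw [this]
      rw [h2]
      simp only [sub_self, mul_zero, zero_div, add_zero]
      linarith
    | succ N hN ih =>
      have hsplit : Y.filter (fun y => t y ≤ N + 1) =
          Y.filter (fun y => t y ≤ N) ∪ Y.filter (fun y => t y = N + 1) := by
        ext y
        simp only [mem_filter, mem_union]
        constructor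
        · rintro ⟨h, h'⟩
          rcases Nat.lt_or_ge N (t y) with h3 | h3
          · exact Or.inr ⟨h, by omega⟩
          · exact Or.inl ⟨h, h3⟩
        · rintro (⟨h, h'⟩ | ⟨h, h'⟩)
          · exact ⟨h, by omega⟩
          · exact ⟨h, by omega⟩
      have hdis : Disjoint (Y.filter (fun y => t y ≤ N)) (Y.filter (fun y => t y = N + 1)) := by
        rw [Finset.disjoint_left]
        intro y hy hy'
        rw [Finset.mem_filter] at hy hy'
        omega
      have h2 : ∑ y ∈ Y.filter (fun y => t y = N + 1), ρ ^ t y =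
          ((Y.filter (fun y => t y = N + 1)).card : ℝ) * ρ ^ (N + 1) := by
        rw [Finset.sum_congr rfl (g := fun _ => ρ ^ (N + 1))]
        · rw [Finset.sum_const, nsmul_eq_mul]
        · intro y hy
          rw [Finset.mem_filter] at hy
          rw [hy.2]
      rw [hsplit, Finset.sum_union hdis, h2, Finset.card_union_of_disjoint hdis]
      set F : ℝ := ((Y.filter (fun y => t y ≤ N)).card : ℝ) with hFdef
      set D : ℝ := ((Y.filter (fun y => t y = N + 1)).card : ℝ) with hD
      have h3 : F ≤ A * N + B := hF N hN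
      have h4 : 0 ≤ ρ ^ N := pow_nonneg h0 N
      have h5 : A * (ρ ^ (m + 1) - ρ ^ (N + 1 + 1)) / (1 - ρ) =
          A * (ρ ^ (m + 1) - ρ ^ (N + 1)) / (1 - ρ) + A * ρ ^ (N + 1) := by
        field_simp
        ring
      rw [h5]
      push_cast
      have h6 : 0 ≤ (A * N + B - F) * (ρ ^ N * (1 - ρ)) :=
        mul_nonneg (by linarith) (mul_nonneg h4 h1'.le)
      have h7 : ρ ^ (N + 1) = ρ ^ N * ρ := pow_succ ρ N
      rw [← hFdef, ← hD]
      rw [h7] at ih ⊢
      nlinarith
  -- take N large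
  obtain ⟨N, hN⟩ : ∃ N, ∀ y ∈ Y, t y ≤ N := ⟨Y.sup t, fun y hy => Finset.le_sup hy⟩
  have h2 := key (max m N) (le_max_left _ _)
  have h3 : Y.filter (fun y => t y ≤ max m N) = Y :=
    Finset.filter_true_of_mem (fun y hy => (hN y hy).trans (le_max_right _ _))
  have h4 := hF (max m N) (le_max_left _ _)
  rw [h3] at h2 h4
  have h5 : 0 ≤ ρ ^ (max m N) := pow_nonneg h0 _
  have h6 : 0 ≤ (A * ((max m N : ℕ) : ℝ) + B - (Y.card : ℝ)) * ρ ^ (max m N) :=
    mul_nonneg (by linarith) h5
  have h7 : A * (ρ ^ (m + 1) - ρ ^ (max m N + 1)) / (1 - ρ) ≤ A * ρ ^ (m + 1) / (1 - ρ) := by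
    apply div_le_div_of_nonneg_right _ h1'.le
    apply mul_le_mul_of_nonneg_left _ hA
    have : 0 ≤ ρ ^ (max m N + 1) := pow_nonneg h0 _
    linarith
  linarith

end Pool.Agent.Lib.MP_85f9db_co.H67
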