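import Pool.Agent.Lib.MP_85f9db_co.H67.Colour
import Pool.Agent.Lib.MP_85f9db_co.H67.Sums
import Pool.Agent.Lib.MP_85f9db_co.H67.Numeric

set_option autoImplicit false

/-! # Degree sum at least `n + 14` -/

namespace Pool.Agent.Lib.MP_85f9db_co.H67

open Finset

lemma wt_eq (τ : ℕ) (x l : ℝ) (t : ℕ) :
    wt τ x l t = (if t < τ then x / (1 - l) else (1 - x) / (1 - l)) ^ t / (1 - l) ^ 2 := by
  unfold wt
  split_ifs
  · rw [div_pow, div_div, ← pow_add]
  · rw [div_pow, div_div, ← pow_add]

lemma sum_wt_le {V : Type*} (Y : Finset V) (t : V → ℕ) (h16 : ∀ y ∈ Y, 16 ≤ t y) (τ : ℕ)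
    (hτ : 16 ≤ τ) (c : ℝ) (hc0 : 0 ≤ c)
    (hF : ∀ s, 16 ≤ s → ((Y.filter (fun y => t y ≤ s)).card : ℝ) ≤ 4 * c * s + (-27 * c))
    (x l : ℝ) (hl : l < 1) (h10 : 0 ≤ x / (1 - l)) (h11 : x / (1 - l) < 1)
    (h20 : 0 ≤ (1 - x) / (1 - l)) (h21 : (1 - x) / (1 - l) < 1) :
    ∑ y ∈ Y, wt τ x l (t y) ≤ SB c (x / (1 - l)) ((1 - x) / (1 - l)) τ / (1 - l) ^ 2 := by
  classical
  have hl' : 0 < (1 - l) ^ 2 := by
    apply pow_pos
    linarith
  have h1 : ∑ y ∈ Y, wt τ x l (t y) =
      (∑ y ∈ Y.filter (fun y => t y < τ), (x / (1 - l)) ^ t y +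
        ∑ y ∈ Y.filter (fun y => ¬ t y < τ), ((1 - x) / (1 - l)) ^ t y) / (1 - l) ^ 2 := by
    rw [← Finset.sum_filter_add_sum_filter_not Y (fun y => t y < τ), add_div,
      Finset.sum_div, Finset.sum_div]
    congr 1
    · apply Finset.sum_congr rfl
      intro y hy
      rw [wt_eq, if_pos (Finset.mem_filter.mp hy).2]
    · apply Finset.sum_congr rfl
      intro y hy
      rw [wt_eq, if_neg (Finset.mem_filter.mp hy).2]
  rw [h1]
  apply div_le_div_of_nonneg_right _ hl'.le
  unfold SB
  have hsub : ∀ (P : V → Prop) [DecidablePred P] (s : ℕ),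
      (((Y.filter P).filter (fun y => t y ≤ s)).card : ℝ) ≤
        ((Y.filter (fun y => t y ≤ s)).card : ℝ) := by
    intro P _ s
    apply Nat.cast_le.mpr
    apply Finset.card_le_card
    intro y hy
    simp only [mem_filter] at hy ⊢
    exact ⟨hy.1.1, hy.2⟩
  have hA : (0 : ℝ) ≤ 4 * c := by positivity
  have h2 := geo_sum (Y.filter (fun y => t y < τ)) t 16
    (fun y hy => h16 y (Finset.mem_filter.mp hy).1) (4 * c) (-27 * c) hA
    (fun s hs => (hsub _ s).trans (hF s hs)) _ h10 h11
  have h3 := geo_sum (Y.filter (fun y => ¬ t y < τ)) t τ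
    (fun y hy => not_lt.mp (Finset.mem_filter.mp hy).2) (4 * c) (-27 * c) hA
    (fun s hs => (hsub _ s).trans (hF s (hτ.trans hs))) _ h20 h21
  push_cast at h2
  exact add_le_add h2 h3

section

variable {V : Type*} [Fintype V] [DecidableEq V] (G : SimpleGraph V) [DecidableRel G.Adj]

/-- A general form of the colouring step, with noise rate `1 / (k + 1)`. -/
theorem colouring_of_regime (k : ℕ) (b : V → Bool) (τ : ℕ) (hτ : 16 ≤ τ)
    (hb : ∀ u v, u ≠ v → ¬ G.Adj u v → (com G u v).card < τ → b u ≠ b v)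
    (h16 : ∀ u v, u ≠ v → ¬ G.Adj u v → 16 ≤ (com G u v).card)
    (hcount : ∀ z s, 16 ≤ s → (((univ.filter (fun y => z ≠ y ∧ ¬ G.Adj z y)).filter
      (fun y => (com G z y).card ≤ s)).card : ℝ) ≤
        4 * (2 * (τ : ℝ) - 14) * s + (-27 * (2 * (τ : ℝ) - 14)))
    (x l : ℝ) (hx : x = 2 * (1 / ((k : ℝ) + 1)) * (1 - 1 / ((k : ℝ) + 1))) (hl : l < 1)
    (h11 : x / (1 - l) < 1) (h21 : (1 - x) / (1 - l) < 1)
    (hS : SB (2 * (τ : ℝ) - 14) (x / (1 - l)) ((1 - x) / (1 - l)) τ / (1 - l) ^ 2 ≤ l) :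
    ∃ c : Sym2 V → Bool, ∀ u v, u ≠ v → ¬ G.Adj u v →
      ∃ w, G.Adj u w ∧ G.Adj v w ∧ c s(u, w) ≠ c s(v, w) := by
  have hk : (0 : ℝ) < (k : ℝ) + 1 := by positivity
  have hq1 : 1 / ((k : ℝ) + 1) ≤ 1 := by
    rw [div_le_one hk]
    have : (0 : ℝ) ≤ k := Nat.cast_nonneg k
    linarith
  have hq0 : 0 ≤ 1 / ((k : ℝ) + 1) := by positivity
  set q : ℝ := 1 / ((k : ℝ) + 1) with hqdef
  have hx0 : 0 ≤ x := by
    rw [hx]
    have : 0 ≤ 1 - q := by linarith
    positivity
  have hx1 : x ≤ 1 / 2 := by rw [hx]; nlinarith [sq_nonneg (q - 1 / 2)]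
  have hl' : 0 < 1 - l := by linarith
  have hτ' : (16 : ℝ) ≤ τ := by exact_mod_cast hτ
  apply exists_colouring G (α := Fin (k + 1)) b (fun a => a = 0) q hq0 hq1 (by
    rw [Finset.filter_eq', if_pos (mem_univ _), Finset.card_singleton, Fintype.card_fin, hqdef]
    push_cast
    rfl) τ hb l hl
  intro z
  rw [← hx]
  refine le_trans ?_ hS
  apply sum_wt_le _ (fun y => (com G z y).card)
  · intro y hy
    obtain ⟨_, h1, h2⟩ := Finset.mem_filter.mp hy
    exact h16 z y h1 h2
  · exact hτ
  · linarith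
  · exact hcount z
  · exact hl
  · positivity
  · exact h11
  · apply div_nonneg _ hl'.le
    linarith
  · exact h21

theorem main_aux (hdeg : ∀ u v, u ≠ v → ¬ G.Adj u v →
      Fintype.card V + 14 ≤ G.degree u + G.degree v) :
    ∃ c : Sym2 V → Bool, ∀ u v, u ≠ v → ¬ G.Adj u v →
      ∃ w, G.Adj u w ∧ G.Adj v w ∧ c s(u, w) ≠ c s(v, w) := by
  classical
  -- basic counting facts
  have hexc : ∀ u v, u ≠ v → ¬ G.Adj u v → (exc G u v).card + 14 ≤ 2 * (com G u v).card := by
    intro u v huv hadj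
    have h1 := card_exc G u v
    have h2 := hdeg u v huv hadj
    omega
  have h16 : ∀ u v, u ≠ v → ¬ G.Adj u v → 16 ≤ (com G u v).card := by
    intro u v huv hadj
    have h1 := hexc u v huv hadj
    have h2 : insert u (insert v (com G u v)) ⊆ exc G u v := by
      intro w hw
      rw [mem_exc]
      simp only [mem_insert, mem_com] at hw
      rcases hw with rfl | rfl | hw
      · have : ¬ G.Adj v w := fun h => hadj h.symm
        simp [this]
      · simp [hadj]
      · simp [hw]
    have h3 := Finset.card_le_card h2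
    rw [Finset.card_insert_of_notMem, Finset.card_insert_of_notMem] at h3
    · omega
    · rw [mem_com]
      intro h
      exact G.loopless.irrefl v h.2
    · rw [mem_insert, mem_com]
      rintro (h | h)
      · exact huv h
      · exact G.loopless.irrefl u h.1
  by_cases hall : ∀ s, (light G s).Colorable 2
  · -- all non-adjacent pairs are separated by one cut
    obtain ⟨C⟩ := hall (Fintype.card V)
    refine ⟨cutc (fun v => decide (C v = 0)), ?_⟩
    intro u v huv hadj
    have h1 : 0 < (com G u v).card := by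
      have := h16 u v huv hadj
      omega
    obtain ⟨w, hw⟩ := Finset.card_pos.mp h1
    rw [mem_com] at hw
    refine ⟨w, hw.1, hw.2, ?_⟩
    have h2 : (light G (Fintype.card V)).Adj u v := ⟨huv, hadj, Finset.card_le_univ _⟩
    have h3 := C.valid h2
    unfold cutc
    simp only [Sym2.lift_mk]
    have h4 : decide (C u = 0) ≠ decide (C v = 0) := by
      intro h
      apply h3
      rw [decide_eq_decide] at h
      by_cases h5 : C u = 0
      · rw [h5, h.mp h5]
      · have h6 : C v ≠ 0 := fun h7 => h5 (h.mpr h7)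
        omega
    intro h5
    apply h4
    revert h5
    generalize decide (C u = 0) = a1
    generalize decide (C v = 0) = a2
    generalize decide (C w = 0) = a3
    revert a1 a2 a3
    decide
  · push Not at hall
    set τ := Nat.find hall with hτdef
    have hτ : ¬ (light G τ).Colorable 2 := Nat.find_spec hall
    have hτmin : ∀ s, s < τ → (light G s).Colorable 2 := by
      intro s hs
      by_contra h
      exact Nat.find_min hall hs h
    have hτ16 : 16 ≤ τ := by
      by_contra hcon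
      apply hτ
      refine ⟨SimpleGraph.Coloring.mk (fun _ => 0) ?_⟩
      intro u v h
      obtain ⟨h1, h2, h3⟩ := h
      have := h16 u v h1 h2
      omega
    obtain ⟨C⟩ := hτmin (τ - 1) (by omega)
    obtain ⟨b, hbdef⟩ : ∃ b : V → Bool, ∀ v, b v = decide (C v = 0) :=
      ⟨fun v => decide (C v = 0), fun _ => rfl⟩
    have hb : ∀ u v, u ≠ v → ¬ G.Adj u v → (com G u v).card < τ → b u ≠ b v := by
      intro u v huv hadj ht
      have h3 := C.valid (show (light G (τ - 1)).Adj u v from ⟨huv, hadj, by omega⟩)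
      rw [hbdef, hbdef]
      intro h
      apply h3
      rw [decide_eq_decide] at h
      by_cases h5 : C u = 0
      · rw [h5, h.mp h5]
      · have h6 : C v ≠ 0 := fun h7 => h5 (h.mpr h7)
        omega
    obtain ⟨l, u, hu, hinj⟩ := exists_oddSeq_inj hτ
    have hM : ∀ i, (exc G (u i) (u (i + 1))).card ≤ 2 * τ - 14 := by
      intro i
      obtain ⟨h1, h2, h3⟩ := hu.adj i
      have := hexc _ _ h1 h2
      omega
    have hcount : ∀ z s, 16 ≤ s → (((univ.filter (fun y => z ≠ y ∧ ¬ G.Adj z y)).filter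
        (fun y => (com G z y).card ≤ s)).card : ℝ) ≤
        4 * (2 * (τ : ℝ) - 14) * s + (-27 * (2 * (τ : ℝ) - 14)) := by
      intro z s hs
      have h1 := card_near_le G hu hinj (2 * τ - 14) hM z (2 * s - 14)
      have h2 : ((univ.filter (fun y => z ≠ y ∧ ¬ G.Adj z y)).filter
          (fun y => (com G z y).card ≤ s)).card ≤ (2 * (2 * s - 14) + 1) * (2 * τ - 14) := by
        refine le_trans (Finset.card_le_card ?_) h1
        intro y hy
        simp only [mem_filter, mem_univ, true_and] at hy ⊢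
        have := hexc z y hy.1.1 hy.1.2
        omega
      have h3 : (((2 * (2 * s - 14) + 1) * (2 * τ - 14) : ℕ) : ℝ) =
          (4 * (s : ℝ) - 27) * (2 * (τ : ℝ) - 14) := by
        have h4 : 2 * (2 * s - 14) + 1 = 4 * s - 27 := by omega
        rw [h4]
        push_cast [Nat.cast_sub (show 27 ≤ 4 * s by omega), Nat.cast_sub (show 14 ≤ 2 * τ by omega)]
        ring
      calc _ ≤ (((2 * (2 * s - 14) + 1) * (2 * τ - 14) : ℕ) : ℝ) := by exact_mod_cast h2
        _ = _ := by rw [h3]; ring
    have hτr : (16 : ℝ) ≤ τ := by exact_mod_cast hτ16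
    rcases Nat.lt_or_ge 22 τ with h22 | h22
    swap
    · -- noise rate 1/2
      apply exists_colouring G (α := Bool) b (fun a => a = true) (1 / 2) (by norm_num)
        (by norm_num) (by
          have : (univ.filter (fun a : Bool => a = true)).card = 1 := by decide
          rw [this, Fintype.card_bool]
          norm_num) τ hb (1 / 19) (by norm_num)
      intro z
      have h1 : ∀ y ∈ univ.filter (fun y => z ≠ y ∧ ¬ G.Adj z y),
          wt τ (2 * (1 / 2) * (1 - 1 / 2)) (1 / 19) (com G z y).card =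
            (19 / 36 : ℝ) ^ (com G z y).card / (1 - 1 / 19) ^ 2 := by
        intro y _
        rw [wt_eq]
        congr 2
        split_ifs <;> norm_num
      rw [Finset.sum_congr rfl h1, ← Finset.sum_div]
      refine le_trans ?_ (num1 τ h22)
      apply div_le_div_of_nonneg_right _ (by positivity)
      have h2 := geo_sum (univ.filter (fun y => z ≠ y ∧ ¬ G.Adj z y)) (fun y => (com G z y).card) 16
        (fun y hy => h16 z y (Finset.mem_filter.mp hy).2.1 (Finset.mem_filter.mp hy).2.2)
        (4 * (2 * (τ : ℝ) - 14)) (-27 * (2 * (τ : ℝ) - 14)) (by linarith)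
        (hcount z) (19 / 36) (by norm_num) (by norm_num)
      push_cast at h2
      exact h2
    rcases Nat.lt_or_ge 80 τ with h80 | h80
    swap
    · -- noise rate 1/3
      apply colouring_of_regime G 2 b τ hτ16 hb h16 hcount (4 / 9) (1 / 24) (by norm_num)
        (by norm_num) (by norm_num) (by norm_num)
      apply num_mid τ 23 80 _ _ _ le_rfl (by omega) h80 (by norm_num) (by norm_num)
        (by norm_num) (by norm_num) (by norm_num)
      norm_num
    rcases Nat.lt_or_ge 1400 τ with h1400 | h1400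
    swap
    · -- noise rate 1/4
      apply colouring_of_regime G 3 b τ hτ16 hb h16 hcount (3 / 8) (1 / 32) (by norm_num)
        (by norm_num) (by norm_num) (by norm_num)
      apply num_mid τ 81 1400 _ _ _ (by norm_num) (by omega) h1400 (by norm_num) (by norm_num)
        (by norm_num) (by norm_num) (by norm_num)
      norm_num
    · -- noise rate 1/⌊√τ⌋
      obtain ⟨k, hk⟩ : ∃ k, Nat.sqrt τ = k + 1 := by
        have : 37 ≤ Nat.sqrt τ := Nat.le_sqrt.mpr (by omega)
        exact ⟨Nat.sqrt τ - 1, by omega⟩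
      have hk37 : 37 ≤ k + 1 := by
        rw [← hk]
        exact Nat.le_sqrt.mpr (by omega)
      have hs1 : (k + 1) * (k + 1) ≤ τ := by rw [← hk]; exact Nat.sqrt_le τ
      have hs2 : τ < (k + 1 + 1) * (k + 1 + 1) := by rw [← hk]; exact Nat.lt_succ_sqrt τ
      have hk37' : (37 : ℝ) ≤ (k : ℝ) + 1 := by exact_mod_cast hk37
      have hs1' : ((k : ℝ) + 1) * ((k : ℝ) + 1) ≤ τ := by exact_mod_cast hs1
      have hs2' : (τ : ℝ) ≤ ((k : ℝ) + 1 + 1) * ((k : ℝ) + 1 + 1) := by exact_mod_cast hs2.le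
      set m : ℝ := (k : ℝ) + 1 with hm
      have hm0 : 0 < m := by linarith
      obtain ⟨y, hy⟩ : ∃ y : ℝ, y = 1 / m := ⟨_, rfl⟩
      have hym : y * m = 1 := by rw [hy]; field_simp
      have hy0 : 0 < y := by rw [hy]; positivity
      have hy37 : y ≤ 1 / 37 := by
        rw [hy]
        exact one_div_le_one_div_of_le (by norm_num) hk37'
      have hq : 2 * (1 / ((k : ℝ) + 1)) * (1 - 1 / ((k : ℝ) + 1)) = 2 * y * (1 - y) := by
        rw [hy]
      have hl1 : (0 : ℝ) < 1 - y / 4 := by linarith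
      have hρ1 : 2 * y * (1 - y) / (1 - y / 4) ≤ 2 * y := by
        rw [div_le_iff₀ hl1]
        nlinarith
      have hρ2 : (1 - 2 * y * (1 - y)) / (1 - y / 4) ≤ 1 - 3 / 2 * y := by
        rw [div_le_iff₀ hl1]
        nlinarith
      have hρ10 : 0 ≤ 2 * y * (1 - y) / (1 - y / 4) := by
        apply div_nonneg _ hl1.le
        nlinarith
      have hρ20 : 0 ≤ (1 - 2 * y * (1 - y)) / (1 - y / 4) := by
        apply div_nonneg _ hl1.le
        nlinarith
      apply colouring_of_regime G k b τ hτ16 hb h16 hcount (2 * y * (1 - y)) (y / 4) hq.symm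
        (by linarith) (by linarith) (by linarith)
      apply num_last τ y _ _ hy0 hy37 _ _ hρ10 hρ1 hρ20 hρ2
      · have h1 : m * m * y ^ 2 = 1 := by
          calc m * m * y ^ 2 = (y * m) ^ 2 := by ring
            _ = 1 := by rw [hym]; norm_num
        calc (1 : ℝ) = m * m * y ^ 2 := h1.symm
          _ ≤ (τ : ℝ) * y ^ 2 := mul_le_mul_of_nonneg_right hs1' (by positivity)
      · calc (τ : ℝ) * y ^ 2 ≤ ((m + 1) * (m + 1)) * y ^ 2 :=
              mul_le_mul_of_nonneg_right hs2' (by positivity)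
          _ = (y * m + y) ^ 2 := by ring
          _ = (1 + y) ^ 2 := by rw [hym]

end

end Pool.Agent.Lib.MP_85f9db_co.H67
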